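import Pool.Agent.Q231.LQ.Red

/-!
# The reduction is correct
-/

namespace Pool.Agent.Q231.LQ

open Pool.Agent.NPC Pool.Agent.Q231.NaeN

theorem pref3 {x y z h a : ℕ} (hh : h ∈ [x, y, z]) (hp : Prefers [x, y, z] h a) :
    (a = y → h = x) ∧ (a = z → h = x ∨ h = y) := by
  unfold Prefers at hp
  simp only [List.mem_cons, List.not_mem_nil, or_false] at hh
  simp only [List.idxOf_cons, List.idxOf_nil] at hp
  by_cases h1 : h = x
  · exact ⟨fun _ => h1, fun _ => Or.inl h1⟩
  · rcases hh with hh | hh | hh
    · exact absurd hh h1
    · refine ⟨fun ha => ?_, fun _ => Or.inr hh⟩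
      subst ha hh
      simp at hp
    · subst hh
      refine ⟨fun ha => ?_, fun ha => ?_⟩
      · subst ha
        exfalso
        by_cases h2 : a = h
        · subst h2
          simp at hp
        · by_cases h3 : x = a
          · subst h3
            simp at hp
          · have h4 : (x == a) = false := by simpa using h3
            have h5 : (x == h) = false := by simpa using Ne.symm h1
            have h6 : (a == h) = false := by simpa using h2
            simp [h4, h5, h6] at hp
      · subst ha
        simp at hp

theorem prefers_second {x y z : ℕ} (h1 : x ≠ y) (h2 : x ≠ z) (h3 : y ≠ z) :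
    Prefers [x, y, z] y z := by
  unfold Prefers
  have h4 : (x == y) = false := by simpa using h1
  have h5 : (x == z) = false := by simpa using h2
  have h6 : (y == z) = false := by simpa using h3
  simp [List.idxOf_cons, h4, h5, h6]

/-! ### From a truth assignment to a matching -/

variable {φ : List (ℕ × ℕ × ℕ)} {τ : ℕ → Bool}

theorem asg_d {r h : ℕ} (hh : h % 17 < 9) : asg φ τ r ≠ h := by
  intro he
  unfold asg eH nH at he
  generalize first φ (var φ (r / 3)) = f at *
  split_ifs at he <;> omega

theorem asg_n {r b d : ℕ} (hd : d < 3) : asg φ τ r = 17 * b + 12 + d ↔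
    (r = 9 * b + 3 * d + 1 ∨ r = 9 * b + 3 * d + 2) ∧ τ (var φ (3 * b + d)) = false := by
  have key : (r = 9 * b + 3 * d + 1 ∨ r = 9 * b + 3 * d + 2) → r / 3 = 3 * b + d := by omega
  unfold asg eH nH
  generalize hf : first φ (var φ (r / 3)) = f at *
  constructor
  · intro he
    have h1 : (r = 9 * b + 3 * d + 1 ∨ r = 9 * b + 3 * d + 2) := by
      split_ifs at he <;> omega
    refine ⟨h1, ?_⟩
    rw [← key h1]
    split_ifs at he with h2 h3 h4 h5 h6
    · omega
    · omega
    · omega
    · simpa using h5
    · omega
    · simpa using h6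
  · rintro ⟨h1, h2⟩
    rw [← key h1] at h2
    rw [h2]
    simp only [Bool.false_eq_true, if_false]
    split_ifs <;> omega

theorem asg_k {r b : ℕ} : asg φ τ r = 17 * b + 15 ↔
    r % 3 = 0 ∧ r / 9 = b ∧ τ (var φ (r / 3)) = false := by
  unfold asg eH nH
  generalize first φ (var φ (r / 3)) = f at *
  generalize τ (var φ (r / 3)) = c at *
  split_ifs with h1 h2 h3 h4 h5 <;> simp_all <;> omega

theorem asg_k' {r b : ℕ} : asg φ τ r = 17 * b + 16 ↔
    r % 3 = 2 ∧ r / 9 = b ∧ τ (var φ (r / 3)) = true := by
  unfold asg eH nH
  generalize first φ (var φ (r / 3)) = f at *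
  generalize τ (var φ (r / 3)) = c at *
  split_ifs with h1 h2 h3 h4 h5 <;> simp_all <;> omega

theorem card_le_range (M : ℕ → Option ℕ) (h : ℕ) :
    (assignees (red φ).1 M h).card ≤ 9 * φ.length := by
  unfold assignees
  refine (Finset.card_filter_le _ _).trans ?_
  rw [Finset.card_range, len1]

theorem isMatching_mat (hτ : ∀ t ∈ φ, ¬ (τ t.1 = τ t.2.1 ∧ τ t.2.1 = τ t.2.2)) :
    IsMatching (red φ).1 (mat φ τ) := by
  refine ⟨fun r h hr => ?_, fun h hh => ?_⟩
  · unfold mat at hr
    split_ifs at hr with h1
    rw [Option.some.injEq] at hr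
    subst hr
    rw [len1, resPref_red h1]
    exact ⟨h1, asg_mem φ τ r⟩
  · rw [len2] at hh
    unfold lower upper
    rw [hos_red hh]
    obtain ⟨b, k, hk, e1, e2, e3⟩ := split17 h
    have hb : b < φ.length := by omega
    have hclause : ¬ (τ (var φ (3 * b)) = τ (var φ (3 * b + 1)) ∧
        τ (var φ (3 * b + 1)) = τ (var φ (3 * b + 2))) := by
      obtain ⟨h1, h2, h3⟩ := var_get (List.getElem?_eq_getElem hb)
      rw [h1, h2, h3]
      exact hτ _ (List.getElem_mem hb)
    unfold hl
    rw [e2, e3]
    split_ifs with c1 c2 c3 c4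
    · left
      rw [Finset.card_eq_zero, Finset.eq_empty_iff_forall_notMem]
      intro r hr
      rw [mem_assignees] at hr
      exact asg_d (by omega) hr.2
    · have := card_le_range (φ := φ) (mat φ τ) h
      simp only
      omega
    · simp only
      obtain ⟨d, hd, hk'⟩ : ∃ d, d < 3 ∧ k = 12 + d := ⟨k - 12, by omega, by omega⟩
      have key : ∀ r, r ∈ assignees (red φ).1 (mat φ τ) h ↔
          (r = 9 * b + 3 * d + 1 ∨ r = 9 * b + 3 * d + 2) ∧
            τ (var φ (3 * b + d)) = false := by
        intro r
        rw [mem_assignees, show h = 17 * b + 12 + d by omega, asg_n hd]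
        constructor
        · exact fun h => h.2
        · exact fun h => ⟨by omega, h⟩
      cases hc : τ (var φ (3 * b + d))
      · right
        have : assignees (red φ).1 (mat φ τ) h = {9 * b + 3 * d + 1, 9 * b + 3 * d + 2} := by
          ext r
          rw [key, hc]
          simp
        rw [this, Finset.card_pair (by omega)]
        omega
      · left
        rw [Finset.card_eq_zero, Finset.eq_empty_iff_forall_notMem]
        intro r hr
        rw [key, hc] at hr
        simp at hr
    · have key : ∀ r, r ∈ assignees (red φ).1 (mat φ τ) h → (r = 9 * b ∨ r = 9 * b + 3 ∨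
          r = 9 * b + 6) ∧ τ (var φ (r / 3)) = false := by
        intro r hr
        rw [mem_assignees, show h = 17 * b + 15 by omega, asg_k] at hr
        exact ⟨by omega, hr.2.2.2⟩
      have hle : (assignees (red φ).1 (mat φ τ) h).card ≤ 2 := by
        have : ∃ x y, assignees (red φ).1 (mat φ τ) h ⊆ {x, y} := by
          by_cases h1 : τ (var φ (3 * b)) = true
          · refine ⟨9 * b + 3, 9 * b + 6, fun r hr => ?_⟩
            obtain ⟨h2 | h2 | h2, h3⟩ := key r hr
            · rw [h2, show 9 * b / 3 = 3 * b by omega, h1] at h3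
              simp at h3
            · simp [h2]
            · simp [h2]
          · by_cases h1' : τ (var φ (3 * b + 1)) = true
            · refine ⟨9 * b, 9 * b + 6, fun r hr => ?_⟩
              obtain ⟨h2 | h2 | h2, h3⟩ := key r hr
              · simp [h2]
              · rw [h2, show (9 * b + 3) / 3 = 3 * b + 1 by omega, h1'] at h3
                simp at h3
              · simp [h2]
            · refine ⟨9 * b, 9 * b + 3, fun r hr => ?_⟩
              obtain ⟨h2 | h2 | h2, h3⟩ := key r hr
              · simp [h2]
              · simp [h2]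
              · rw [h2, show (9 * b + 6) / 3 = 3 * b + 2 by omega] at h3
                simp only [Bool.not_eq_true] at h1 h1'
                rw [h1, h1', h3] at hclause
                simp at hclause
        obtain ⟨x, y, hxy⟩ := this
        exact (Finset.card_le_card hxy).trans Finset.card_le_two
      simp only
      omega
    · have key : ∀ r, r ∈ assignees (red φ).1 (mat φ τ) h → (r = 9 * b + 2 ∨ r = 9 * b + 5 ∨
          r = 9 * b + 8) ∧ τ (var φ (r / 3)) = true := by
        intro r hr
        rw [mem_assignees, show h = 17 * b + 16 by omega, asg_k'] at hr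
        exact ⟨by omega, hr.2.2.2⟩
      have hle : (assignees (red φ).1 (mat φ τ) h).card ≤ 2 := by
        have : ∃ x y, assignees (red φ).1 (mat φ τ) h ⊆ {x, y} := by
          by_cases h1 : τ (var φ (3 * b)) = false
          · refine ⟨9 * b + 5, 9 * b + 8, fun r hr => ?_⟩
            obtain ⟨h2 | h2 | h2, h3⟩ := key r hr
            · rw [h2, show (9 * b + 2) / 3 = 3 * b by omega, h1] at h3
              simp at h3
            · simp [h2]
            · simp [h2]
          · by_cases h1' : τ (var φ (3 * b + 1)) = false
            · refine ⟨9 * b + 2, 9 * b + 8, fun r hr => ?_⟩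
              obtain ⟨h2 | h2 | h2, h3⟩ := key r hr
              · simp [h2]
              · rw [h2, show (9 * b + 5) / 3 = 3 * b + 1 by omega, h1'] at h3
                simp at h3
              · simp [h2]
            · refine ⟨9 * b + 2, 9 * b + 5, fun r hr => ?_⟩
              obtain ⟨h2 | h2 | h2, h3⟩ := key r hr
              · simp [h2]
              · simp [h2]
              · rw [h2, show (9 * b + 8) / 3 = 3 * b + 2 by omega] at h3
                simp only [Bool.not_eq_false] at h1 h1'
                rw [h1, h1', h3] at hclause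
                simp at hclause
        obtain ⟨x, y, hxy⟩ := this
        exact (Finset.card_le_card hxy).trans Finset.card_le_two
      simp only
      omega

theorem stable_mat (hτ : ∀ t ∈ φ, ¬ (τ t.1 = τ t.2.1 ∧ τ t.2.1 = τ t.2.2)) :
    PairwiseStable (red φ).1 (mat φ τ) := by
  refine ⟨isMatching_mat hτ, fun r hr h hw hne => absurd ?_ hne⟩
  rw [len1] at hr
  obtain ⟨h1, h2⟩ := hw
  rw [resPref_red hr] at h1 h2
  have h3 := h2 (asg φ τ r) (by simp [mat, hr])
  have hj : r / 3 < 3 * φ.length := by omega
  have hd : (assignees (red φ).1 (mat φ τ) (dH r)).card = 0 := by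
    rw [Finset.card_eq_zero, Finset.eq_empty_iff_forall_notMem]
    intro r' hr'
    rw [mem_assignees] at hr'
    exact asg_d (by unfold dH; omega) hr'.2
  have he : τ (var φ (r / 3)) = false →
      (assignees (red φ).1 (mat φ τ) (eH (first φ (var φ (r / 3))))).card = 0 := by
    intro hf
    rw [Finset.card_eq_zero, Finset.eq_empty_iff_forall_notMem]
    intro r' hr'
    rw [mem_assignees] at hr'
    rw [asg_e hr'.1 hj hr'.2] at hf
    simp at hf
  have hn : τ (var φ (r / 3)) = true →
      (assignees (red φ).1 (mat φ τ) (nH (r / 3))).card = 0 := by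
    intro hf
    rw [Finset.card_eq_zero, Finset.eq_empty_iff_forall_notMem]
    intro r' hr'
    rw [mem_assignees] at hr'
    have h5 : nH (r / 3) = 17 * (r / 3 / 3) + 12 + r / 3 % 3 := rfl
    rw [h5, asg_n (by omega), show 3 * (r / 3 / 3) + r / 3 % 3 = r / 3 by omega, hf] at hr'
    simp at hr'
  unfold rl at h1 h3
  unfold asg at h3
  split_ifs at h1 h3 with c1 c2 c3 c4 c5
  · rw [(pref3 h1 h3).1 rfl]
    exact hd
  · rcases (pref3 h1 h3).2 rfl with rfl | rfl
    · exact hd
    · exact he (by simpa using c2)
  · rw [(pref3 h1 h3).1 rfl]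
    exact hd
  · rcases (pref3 h1 h3).2 rfl with rfl | rfl
    · exact hd
    · exact he (by simpa using c4)
  · rcases (pref3 h1 h3).2 rfl with rfl | rfl
    · exact hd
    · exact hn c5
  · rw [(pref3 h1 h3).1 rfl]
    exact hd

/-! ### From a matching to a truth assignment -/

variable {M : ℕ → Option ℕ}

theorem mem_ass {h r : ℕ} : r ∈ assignees (red φ).1 M h ↔ r < 9 * φ.length ∧ M r = some h := by
  unfold assignees
  rw [Finset.mem_filter, Finset.mem_range, len1]

/-- every resident is assigned -/
theorem all_assigned (hM : IsAssignment (red φ).1 M) (hs : 9 * φ.length ≤ size (red φ).1 M)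
    {r : ℕ} (hr : r < 9 * φ.length) : ∃ h, M r = some h ∧ h ∈ rl φ r := by
  have h1 : (Finset.range (red φ).1.1.length).filter (fun r => (M r).isSome) =
      Finset.range (red φ).1.1.length := by
    refine Finset.eq_of_subset_of_card_le (Finset.filter_subset _ _) ?_
    unfold size at hs
    rw [len1] at hs ⊢
    rw [Finset.card_range]
    exact hs
  have h2 : r ∈ (Finset.range (red φ).1.1.length).filter (fun r => (M r).isSome) := by
    rw [h1, Finset.mem_range, len1]
    exact hr
  rw [Finset.mem_filter] at h2
  obtain ⟨h, hh⟩ := Option.isSome_iff_exists.1 h2.2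
  refine ⟨h, hh, ?_⟩
  have h3 := (hM r h hh).2
  rwa [resPref_red hr] at h3

theorem ass_mem_hl (hM : IsAssignment (red φ).1 M) {h r : ℕ} (hh : h < 17 * φ.length)
    (hr : r ∈ assignees (red φ).1 M h) : r ∈ (hl φ h).1 := by
  rw [mem_ass] at hr
  rw [mem_hl hh]
  have h3 := (hM r h hr.2).2
  rw [resPref_red hr.1] at h3
  exact ⟨hr.1, h3⟩

/-- private hospitals are closed -/
theorem d_closed (hM : IsMatching (red φ).1 M) {h : ℕ} (hh : h < 17 * φ.length)
    (hk : h % 17 < 9) : (assignees (red φ).1 M h).card = 0 := by
  have h1 : assignees (red φ).1 M h ⊆ {9 * (h / 17) + h % 17} := by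
    intro r hr
    have := ass_mem_hl hM.1 hh hr
    unfold hl at this
    rw [if_pos hk] at this
    simpa using this
  have h2 := Finset.card_le_card h1
  rw [Finset.card_singleton] at h2
  rcases hM.2 h (by rw [len2]; exact hh) with h3 | h3
  · exact h3
  · unfold lower at h3
    rw [hos_red hh] at h3
    unfold hl at h3
    rw [if_pos hk] at h3
    simp only at h3
    omega

theorem not_d (hM : IsMatching (red φ).1 M) {r : ℕ} (hr : r < 9 * φ.length) :
    M r ≠ some (dH r) := by
  intro h
  have h1 := d_closed hM (h := dH r) (by unfold dH; omega) (by unfold dH; omega)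
  rw [Finset.card_eq_zero, Finset.eq_empty_iff_forall_notMem] at h1
  exact h1 r (mem_ass.2 ⟨hr, h⟩)

/-- a variable hospital takes all its residents or none -/
theorem e_all (hM : PairwiseStable (red φ).1 M) {r z : ℕ} (hr : r < 9 * φ.length)
    (hl' : rl φ r = [dH r, eH (first φ (var φ (r / 3))), z])
    (hz : M r = some z) (hez : eH (first φ (var φ (r / 3))) ≠ z)
    (hdz : dH r ≠ z) :
    (assignees (red φ).1 M (eH (first φ (var φ (r / 3))))).card = 0 := by
  by_contra hne
  have hf := (first_spec (φ := φ) (j := r / 3) (by omega)).1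
  have hde : dH r ≠ eH (first φ (var φ (r / 3))) := by
    unfold dH eH
    generalize first φ (var φ (r / 3)) = f
    rcases lt_trichotomy (r / 9) (f / 3) with h1 | h1 | h1 <;> omega
  refine hM.2 r (by rw [len1]; exact hr) (eH (first φ (var φ (r / 3)))) ⟨?_, ?_⟩ hne (Or.inl ?_)
  · rw [resPref_red hr, hl']
    simp
  · intro h' hh'
    rw [hz, Option.some.injEq] at hh'
    rw [← hh', resPref_red hr, hl']
    exact prefers_second hde hdz hez
  · have h1 := card_le_range (φ := φ) M (eH (first φ (var φ (r / 3))))
    have h2 : eH (first φ (var φ (r / 3))) < 17 * φ.length := by unfold eH; omega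
    unfold upper
    rw [hos_red h2]
    have h3 : ¬ eH (first φ (var φ (r / 3))) % 17 < 9 := by unfold eH; omega
    have h4 : eH (first φ (var φ (r / 3))) % 17 < 12 := by unfold eH; omega
    unfold hl
    rw [if_neg h3, if_pos h4]
    simp only
    omega

theorem nae_of_stable (hM : PairwiseStable (red φ).1 M) (hs : 9 * φ.length ≤ size (red φ).1 M) :
    NAEn φ := by
  classical
  let τ : ℕ → Bool := fun v => decide ((assignees (red φ).1 M (eH (first φ v))).card ≠ 0)
  have hf : ∀ v, τ v = false → (assignees (red φ).1 M (eH (first φ v))).card = 0 := by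
    intro v hv
    simpa [τ] using hv
  have hne : ∀ r h, r < 9 * φ.length → (assignees (red φ).1 M h).card = 0 → M r ≠ some h := by
    intro r h hr h0 hh
    rw [Finset.card_eq_zero, Finset.eq_empty_iff_forall_notMem] at h0
    exact h0 r (mem_ass.2 ⟨hr, hh⟩)
  -- the residents of the first kind
  have kA : ∀ r < 9 * φ.length, r % 3 = 0 → τ (var φ (r / 3)) = false →
      M r = some (17 * (r / 9) + 15) := by
    intro r hr h0 hv
    obtain ⟨h, h1, h2⟩ := all_assigned hM.1.1 hs hr
    unfold rl at h2
    rw [if_pos h0] at h2
    simp only [List.mem_cons, List.not_mem_nil, or_false] at h2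
    rcases h2 with rfl | rfl | rfl
    · exact absurd h1 (not_d hM.1 hr)
    · exact absurd h1 (hne r _ hr (hf _ hv))
    · exact h1
  -- the residents of the second kind
  have kB : ∀ r < 9 * φ.length, r % 3 = 1 → τ (var φ (r / 3)) = true →
      M r ≠ some (nH (r / 3)) := by
    intro r hr h0 hv hz
    have hl' : rl φ r = [dH r, eH (first φ (var φ (r / 3))), nH (r / 3)] := by
      unfold rl
      rw [if_neg (by omega), if_pos h0]
    have := e_all hM hr hl' hz (by
      unfold eH nH
      generalize first φ (var φ (r / 3)) = f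
      omega) (by unfold dH nH; omega)
    simp only [τ, ne_eq, decide_eq_true_eq] at hv
    exact hv this
  -- the residents of the third kind
  have kC : ∀ r < 9 * φ.length, r % 3 = 2 → τ (var φ (r / 3)) = true →
      M r = some (17 * (r / 9) + 16) := by
    intro r hr h0 hv
    obtain ⟨h, h1, h2⟩ := all_assigned hM.1.1 hs hr
    unfold rl at h2
    rw [if_neg (by omega), if_neg (by omega)] at h2
    simp only [List.mem_cons, List.not_mem_nil, or_false] at h2
    rcases h2 with rfl | rfl | rfl
    · exact absurd h1 (not_d hM.1 hr)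
    · exfalso
      have h3 : nH (r / 3) < 17 * φ.length := by unfold nH; omega
      have h4 : assignees (red φ).1 M (nH (r / 3)) ⊆ {r} := by
        intro r' hr'
        have h5 := ass_mem_hl hM.1.1 h3 hr'
        rw [mem_ass] at hr'
        have h6 : (hl φ (nH (r / 3))).1 = [3 * (r / 3) + 1, 3 * (r / 3) + 2] := by
          unfold hl
          rw [if_neg (by unfold nH; omega), if_neg (by unfold nH; omega),
            if_pos (by unfold nH; omega)]
          have : 3 * (nH (r / 3) / 17) + (nH (r / 3) % 17 - 12) = r / 3 := by unfold nH; omega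
          rw [this]
        rw [h6] at h5
        simp only [List.mem_cons, List.not_mem_nil, or_false] at h5
        rw [Finset.mem_singleton]
        rcases h5 with h5 | h5
        · exfalso
          have h7 : r' / 3 = r / 3 := by omega
          have h8 := kB r' hr'.1 (by omega) (by rw [h7]; exact hv)
          rw [h7] at h8
          exact h8 hr'.2
        · omega
      have h5 := Finset.card_le_card h4
      rw [Finset.card_singleton] at h5
      have h6 : (assignees (red φ).1 M (nH (r / 3))).card = 0 := by
        rcases hM.1.2 _ (by rw [len2]; exact h3) with h7 | h7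
        · exact h7
        · unfold lower at h7
          rw [hos_red h3] at h7
          unfold hl at h7
          rw [if_neg (by unfold nH; omega), if_neg (by unfold nH; omega),
            if_pos (by unfold nH; omega)] at h7
          simp only at h7
          omega
      exact hne r _ hr h6 h1
    · exact h1
  refine ⟨τ, fun t ht => ?_⟩
  obtain ⟨i, hi⟩ := List.getElem?_of_mem ht
  have hil : i < φ.length := (List.getElem?_eq_some_iff.1 hi).1
  obtain ⟨v1, v2, v3⟩ := var_get hi
  rw [← v1, ← v2, ← v3]
  rintro ⟨h1, h2⟩
  have three : ∀ h s, h < 17 * φ.length → (hl φ h).2.2 = 2 → s < 3 →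
      (∀ t < 3, M (9 * i + 3 * t + s) = some h) → False := by
    intro h s hh hu hs3 hall
    have h3 : ({9 * i + s, 9 * i + 3 + s, 9 * i + 6 + s} : Finset ℕ) ⊆
        assignees (red φ).1 M h := by
      intro r hr
      simp only [Finset.mem_insert, Finset.mem_singleton] at hr
      rw [mem_ass]
      rcases hr with rfl | rfl | rfl
      · have := hall 0 (by omega)
        exact ⟨by omega, by simpa using this⟩
      · have := hall 1 (by omega)
        exact ⟨by omega, by simpa using this⟩
      · have := hall 2 (by omega)
        exact ⟨by omega, by simpa using this⟩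
    have h4 := Finset.card_le_card h3
    rw [Finset.card_eq_three.2 ⟨9 * i + s, 9 * i + 3 + s, 9 * i + 6 + s, by omega, by omega,
      by omega, rfl⟩] at h4
    rcases hM.1.2 _ (by rw [len2]; exact hh) with h5 | h5
    · omega
    · unfold upper at h5
      rw [hos_red hh, hu] at h5
      omega
  have d1 : ∀ t s, t < 3 → s < 3 → (9 * i + 3 * t + s) / 3 = 3 * i + t := by
    intro t s _ _
    omega
  cases hc : τ (var φ (3 * i))
  · rw [hc] at h1
    rw [← h1] at h2
    refine three (17 * i + 15) 0 (by omega) ?_ (by omega) ?_
    · unfold hl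
      rw [if_neg (by omega), if_neg (by omega), if_neg (by omega), if_pos (by omega)]
    · intro t ht
      have h3 := kA (9 * i + 3 * t + 0) (by omega) (by omega) ?_
      · rw [h3]
        congr 1
        omega
      · rw [d1 t 0 ht (by omega)]
        interval_cases t
        · exact hc
        · exact h1.symm
        · exact h2.symm
  · rw [hc] at h1
    rw [← h1] at h2
    refine three (17 * i + 16) 2 (by omega) ?_ (by omega) ?_
    · unfold hl
      rw [if_neg (by omega), if_neg (by omega), if_neg (by omega), if_neg (by omega)]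
    · intro t ht
      have h3 := kC (9 * i + 3 * t + 2) (by omega) (by omega) ?_
      · rw [h3]
        congr 1
        omega
      · rw [d1 t 2 ht (by omega)]
        interval_cases t
        · exact hc
        · exact h1.symm
        · exact h2.symm

/-! ### Popular hospitals -/

/-- every resident is assigned to her private hospital -/
def priv (φ : List (ℕ × ℕ × ℕ)) (r : ℕ) : Option ℕ :=
  if r < 9 * φ.length then some (dH r) else none

theorem rl_head (φ : List (ℕ × ℕ × ℕ)) (r : ℕ) : ∃ y z, rl φ r = [dH r, y, z] := by
  unfold rl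
  split_ifs
  · exact ⟨_, _, rfl⟩
  · exact ⟨_, _, rfl⟩
  · exact ⟨_, _, rfl⟩

theorem not_prefers_head {φ : List (ℕ × ℕ × ℕ)} {r h : ℕ} :
    ¬ Prefers (rl φ r) h (dH r) := by
  obtain ⟨y, z, h1⟩ := rl_head φ r
  unfold Prefers
  rw [h1]
  simp

theorem priv_stable (φ : List (ℕ × ℕ × ℕ)) : ClassicallyStable (red φ).1 (priv φ) := by
  refine ⟨fun r h hr => ?_, fun h hh => ?_, fun r hr h hw => ?_⟩
  · unfold priv at hr
    split_ifs at hr with h1
    rw [Option.some.injEq] at hr
    subst hr
    rw [len1, resPref_red h1]
    obtain ⟨y, z, h2⟩ := rl_head φ r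
    exact ⟨h1, by rw [h2]; simp⟩
  · rw [len2] at hh
    have h1 : assignees (red φ).1 (priv φ) h ⊆ {9 * (h / 17) + h % 17} := by
      intro r hr
      rw [mem_ass] at hr
      unfold priv at hr
      rw [if_pos hr.1, Option.some.injEq] at hr
      rw [Finset.mem_singleton]
      unfold dH at hr
      omega
    have h2 := Finset.card_le_card h1
    rw [Finset.card_singleton] at h2
    have h3 := hl_quota φ h
    unfold upper
    rw [hos_red hh]
    omega
  · exfalso
    rw [len1] at hr
    have h1 := hw.2 (dH r) (by simp [priv, hr])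
    rw [resPref_red hr] at h1
    exact not_prefers_head h1

theorem not_popular {h : ℕ} (hh : h < 17 * φ.length) : ¬ Popular (red φ).1 h := by
  rintro ⟨M, hM, hc⟩
  have key : ∀ r < 9 * φ.length, M r = some (dH r) := by
    intro r hr
    obtain ⟨h', h1, h2⟩ := hM.2 (priv φ) (priv_stable φ) r (dH r) (by simp [priv, hr])
    rcases h2 with rfl | h2
    · exact h1
    · rw [resPref_red hr] at h2
      exact absurd h2 not_prefers_head
  have h3 : ∀ r ∈ assignees (red φ).1 M h, r = 9 * (h / 17) + h % 17 ∧ h % 17 < 9 := by
    intro r hr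
    rw [mem_ass] at hr
    rw [key r hr.1, Option.some.injEq] at hr
    unfold dH at hr
    omega
  have h1 : assignees (red φ).1 M h ⊆ {9 * (h / 17) + h % 17} := by
    intro r hr
    rw [Finset.mem_singleton]
    exact (h3 r hr).1
  have h2 := Finset.card_le_card h1
  rw [Finset.card_singleton] at h2
  unfold lower at hc
  rw [hos_red hh] at hc
  by_cases hk : h % 17 < 9
  · unfold hl at hc
    rw [if_pos hk] at hc
    simp only at hc
    omega
  · have h4 : (assignees (red φ).1 M h).card = 0 := by
      rw [Finset.card_eq_zero, Finset.eq_empty_iff_forall_notMem]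
      exact fun r hr => hk (h3 r hr).2
    have := (hl_quota φ h).1
    omega

theorem red_correctA (φ : List (ℕ × ℕ × ℕ)) : NAEn φ ↔ ProblemA (red φ) := by
  constructor
  · rintro ⟨τ, hτ⟩
    exact ⟨valid_red φ, low_red φ, mat φ τ, stable_mat hτ, (size_mat φ τ).ge⟩
  · rintro ⟨_, _, M, hM, hs⟩
    exact nae_of_stable hM hs

theorem red_correctB (φ : List (ℕ × ℕ × ℕ)) : NAEn φ ↔ ProblemB (red φ) := by
  constructor
  · rintro ⟨τ, hτ⟩
    refine ⟨valid_red φ, low_red φ, mat φ τ, ⟨stable_mat hτ, fun h hh hp => ?_⟩,
      (size_mat φ τ).ge⟩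
    have hh' : h < 17 * φ.length := by
      have := len2 φ
      unfold red at this
      simp only at this hh
      omega
    exact absurd hp (not_popular hh')
  · rintro ⟨_, _, M, hM, hs⟩
    exact nae_of_stable hM.1 hs

/-! ### Polynomial time -/

theorem first_poly {α : Type} [TEnc α] {φ : α → List (ℕ × ℕ × ℕ)} {v : α → ℕ} (h : Poly φ)
    (hv : Poly v) : Poly (fun a => first (φ a) (v a)) := by
  unfold first occs
  fun_prop

theorem var_poly {α : Type} [TEnc α] {φ : α → List (ℕ × ℕ × ℕ)} {v : α → ℕ} (h : Poly φ)
    (hv : Poly v) : Poly (fun a => var (φ a) (v a)) := by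
  unfold var occs
  fun_prop

theorem range9_poly {α : Type} [TEnc α] {φ : α → List (ℕ × ℕ × ℕ)} (h : Poly φ) :
    Poly (fun a => List.range (9 * (φ a).length)) :=
  ((UPoly.const 9).mul (UPoly.length h)).range

theorem range17_poly {α : Type} [TEnc α] {φ : α → List (ℕ × ℕ × ℕ)} (h : Poly φ) :
    Poly (fun a => List.range (17 * (φ a).length)) :=
  ((UPoly.const 17).mul (UPoly.length h)).range

attribute [local fun_prop] first_poly var_poly range9_poly range17_poly

theorem rl_poly {α : Type} [TEnc α] {φ : α → List (ℕ × ℕ × ℕ)} {v : α → ℕ} (h : Poly φ)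
    (hv : Poly v) : Poly (fun a => rl (φ a) (v a)) := by
  unfold rl dH eH nH
  fun_prop

theorem hl_poly {α : Type} [TEnc α] {φ : α → List (ℕ × ℕ × ℕ)} {v : α → ℕ} (h : Poly φ)
    (hv : Poly v) : Poly (fun a => hl (φ a) (v a)) := by
  unfold hl
  fun_prop

attribute [local fun_prop] rl_poly hl_poly

theorem red_poly : Poly red := by
  unfold red
  fun_prop

theorem hardA : HardI ProblemA := hardI_NAEn.trans red_poly red_correctA

theorem hardB : HardI ProblemB := hardI_NAEn.trans red_poly red_correctB

end Pool.Agent.Q231.LQ
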