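import Pool.Agent.NPC.Defs

/-!
# Pairwise stable matchings of residents to hospitals with lower quotas
-/

namespace Pool.Agent.Q231.LQ

/-- An instance: the preference lists (acceptable hospitals, the most preferred one first) of the
residents `0, 1, 2, ...`, and, for each of the hospitals `0, 1, 2, ...`, its preference list of
residents, its lower quota and its upper quota. -/
abbrev Inst : Type := List (List ℕ) × List (List ℕ × ℕ × ℕ)

/-- the preference list of resident `r` -/
def resPref (I : Inst) (r : ℕ) : List ℕ := I.1.getD r []

/-- the preference list of hospital `h` -/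
def hosPref (I : Inst) (h : ℕ) : List ℕ := (I.2.getD h ([], 0, 0)).1

/-- the lower quota of hospital `h` -/
def lower (I : Inst) (h : ℕ) : ℕ := (I.2.getD h ([], 0, 0)).2.1

/-- the upper quota of hospital `h` -/
def upper (I : Inst) (h : ℕ) : ℕ := (I.2.getD h ([], 0, 0)).2.2

/-- The instance is well formed: strict lists, mutual acceptability, and
`lower quota ≤ upper quota`, `upper quota ≥ 1`. -/
def Valid (I : Inst) : Prop :=
  (∀ r < I.1.length, (resPref I r).Nodup ∧
    ∀ h ∈ resPref I r, h < I.2.length ∧ r ∈ hosPref I h) ∧
  ∀ h < I.2.length, (hosPref I h).Nodup ∧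
    (∀ r ∈ hosPref I h, r < I.1.length ∧ h ∈ resPref I r) ∧
    lower I h ≤ upper I h ∧ 1 ≤ upper I h

/-- All lower quotas are at most `2`. -/
def LowerAtMostTwo (I : Inst) : Prop := ∀ h < I.2.length, lower I h ≤ 2

/-- The owner of the preference list `l` prefers `x` to `y`. -/
def Prefers (l : List ℕ) (x y : ℕ) : Prop := l.idxOf x < l.idxOf y

/-- `M` assigns some residents to acceptable hospitals (`M r = none`: resident `r` is unassigned). -/
def IsAssignment (I : Inst) (M : ℕ → Option ℕ) : Prop :=
  ∀ r h, M r = some h → r < I.1.length ∧ h ∈ resPref I r

/-- the residents assigned to the hospital `h` -/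
def assignees (I : Inst) (M : ℕ → Option ℕ) (h : ℕ) : Finset ℕ :=
  (Finset.range I.1.length).filter (fun r => M r = some h)

/-- the number of assigned residents -/
def size (I : Inst) (M : ℕ → Option ℕ) : ℕ :=
  ((Finset.range I.1.length).filter (fun r => (M r).isSome)).card

/-- `h` is acceptable for `r`, and `r` is unassigned or prefers `h` to her hospital. -/
def ResidentWants (I : Inst) (M : ℕ → Option ℕ) (r h : ℕ) : Prop :=
  h ∈ resPref I r ∧ ∀ h', M r = some h' → Prefers (resPref I r) h h'

/-- `h` is undersubscribed or prefers `r` to one of its assignees. -/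
def HospitalWants (I : Inst) (M : ℕ → Option ℕ) (r h : ℕ) : Prop :=
  (assignees I M h).card < upper I h ∨
    ∃ r' ∈ assignees I M h, Prefers (hosPref I h) r r'

/-- `M` is a **matching**: every hospital has no assignees (it is closed), or (it is open) the number
of its assignees is between its quotas. -/
def IsMatching (I : Inst) (M : ℕ → Option ℕ) : Prop :=
  IsAssignment I M ∧ ∀ h < I.2.length, (assignees I M h).card = 0 ∨
    (lower I h ≤ (assignees I M h).card ∧ (assignees I M h).card ≤ upper I h)

/-- `M` is a **pairwise stable** matching: no acceptable pair `(r, h)` with `h` open blocks. -/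
def PairwiseStable (I : Inst) (M : ℕ → Option ℕ) : Prop :=
  IsMatching I M ∧ ∀ r < I.1.length, ∀ h, ResidentWants I M r h →
    (assignees I M h).card ≠ 0 → ¬ HospitalWants I M r h

/-- `M` is a stable matching of the classical instance obtained by ignoring all lower quotas. -/
def ClassicallyStable (I : Inst) (M : ℕ → Option ℕ) : Prop :=
  IsAssignment I M ∧ (∀ h < I.2.length, (assignees I M h).card ≤ upper I h) ∧
    ∀ r < I.1.length, ∀ h, ResidentWants I M r h → ¬ HospitalWants I M r h

/-- `M` is the resident-optimal stable matching of the classical instance: every resident assigned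
in a stable matching `M'` is assigned in `M`, to the same hospital or to a preferred one. -/
def ResidentOptimal (I : Inst) (M : ℕ → Option ℕ) : Prop :=
  ClassicallyStable I M ∧ ∀ M', ClassicallyStable I M' → ∀ r h', M' r = some h' →
    ∃ h, M r = some h ∧ (h = h' ∨ Prefers (resPref I r) h h')

/-- The hospital `h` is **popular**: in the resident-optimal classically stable matching it has at
least as many assignees as its lower quota. -/
def Popular (I : Inst) (h : ℕ) : Prop :=
  ∃ M, ResidentOptimal I M ∧ lower I h ≤ (assignees I M h).card

/-- `M` is a **popular pairwise stable** matching: every popular hospital is open. -/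
def PopularPairwiseStable (I : Inst) (M : ℕ → Option ℕ) : Prop :=
  PairwiseStable I M ∧ ∀ h < I.2.length, Popular I h → (assignees I M h).card ≠ 0

/-- **Problem A** for lower quotas at most two, as a decision problem: is there a pairwise stable
matching of size at least `k`? -/
def ProblemA : Inst × ℕ → Prop
  | (I, k) => Valid I ∧ LowerAtMostTwo I ∧ ∃ M, PairwiseStable I M ∧ k ≤ size I M

/-- **Problem B** for lower quotas at most two, as a decision problem: is there a popular pairwise
stable matching of size at least `k`? -/
def ProblemB : Inst × ℕ → Prop
  | (I, k) => Valid I ∧ LowerAtMostTwo I ∧ ∃ M, PopularPairwiseStable I M ∧ k ≤ size I M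

end Pool.Agent.Q231.LQ
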