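import Pool.Agent.Q231.LQ.Defs
import Pool.Agent.Q231.NaeN

/-!
# The reduction from not-all-equal satisfiability

For every occurrence `j` of a variable `v` there are three residents `3 j`, `3 j + 1`, `3 j + 2`.
A hospital `E` of the variable takes all its residents or none, because all of them rank it first
(except for a private hospital which can never be open).
-/

namespace Pool.Agent.Q231.LQ

open Pool.Agent.NPC Pool.Agent.Q231.NaeN

/-- the list of the occurrences -/
def occs (φ : List (ℕ × ℕ × ℕ)) : List ℕ := φ.flatMap (fun t => [t.1, t.2.1, t.2.2])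

/-- the variable of the occurrence `j` -/
def var (φ : List (ℕ × ℕ × ℕ)) (j : ℕ) : ℕ := (occs φ).getD j 0

/-- the first occurrence of the variable `v` -/
def first (φ : List (ℕ × ℕ × ℕ)) (v : ℕ) : ℕ :=
  (((occs φ).zipIdx.filter (fun p => decide (p.1 = v))).getD 0 (0, 0)).2

/-- the private hospital of the resident `r` -/
def dH (r : ℕ) : ℕ := 17 * (r / 9) + r % 9

/-- the hospital of the variable whose first occurrence is `j` -/
def eH (j : ℕ) : ℕ := 17 * (j / 3) + 9 + j % 3

/-- the hospital for the negation at the occurrence `j` -/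
def nH (j : ℕ) : ℕ := 17 * (j / 3) + 12 + j % 3

/-- the preference list of the resident `r` -/
def rl (φ : List (ℕ × ℕ × ℕ)) (r : ℕ) : List ℕ :=
  if r % 3 = 0 then [dH r, eH (first φ (var φ (r / 3))), 17 * (r / 9) + 15]
  else if r % 3 = 1 then [dH r, eH (first φ (var φ (r / 3))), nH (r / 3)]
  else [dH r, nH (r / 3), 17 * (r / 9) + 16]

/-- the hospital `h` -/
def hl (φ : List (ℕ × ℕ × ℕ)) (h : ℕ) : List ℕ × ℕ × ℕ :=
  if h % 17 < 9 then ([9 * (h / 17) + h % 17], 2, 2)
  else if h % 17 < 12 then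
    ((List.range (9 * φ.length)).filter (fun r => decide (r % 3 < 2) &&
      decide (first φ (var φ (r / 3)) = 3 * (h / 17) + (h % 17 - 9))), 1, 9 * φ.length + 1)
  else if h % 17 < 15 then
    ([3 * (3 * (h / 17) + (h % 17 - 12)) + 1, 3 * (3 * (h / 17) + (h % 17 - 12)) + 2], 2, 2)
  else if h % 17 = 15 then ([9 * (h / 17), 9 * (h / 17) + 3, 9 * (h / 17) + 6], 1, 2)
  else ([9 * (h / 17) + 2, 9 * (h / 17) + 5, 9 * (h / 17) + 8], 1, 2)

/-- the instance -/
def red (φ : List (ℕ × ℕ × ℕ)) : Inst × ℕ :=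
  (((List.range (9 * φ.length)).map (rl φ), (List.range (17 * φ.length)).map (hl φ)),
    9 * φ.length)

/-! ### Occurrences -/

theorem occs_length (φ : List (ℕ × ℕ × ℕ)) : (occs φ).length = 3 * φ.length := by
  induction φ with
  | nil => rfl
  | cons t φ ih =>
    unfold occs at ih ⊢
    rw [List.flatMap_cons, List.length_append, ih]
    simp
    omega

theorem occs_get (φ : List (ℕ × ℕ × ℕ)) (i : ℕ) (t : ℕ × ℕ × ℕ) (h : φ[i]? = some t) :
    (occs φ)[3 * i]? = some t.1 ∧ (occs φ)[3 * i + 1]? = some t.2.1 ∧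
      (occs φ)[3 * i + 2]? = some t.2.2 := by
  induction φ generalizing i with
  | nil => simp at h
  | cons s φ ih =>
    cases i with
    | zero =>
      simp only [List.getElem?_cons_zero, Option.some.injEq] at h
      subst h
      simp [occs]
    | succ i =>
      rw [List.getElem?_cons_succ] at h
      obtain ⟨h1, h2, h3⟩ := ih i h
      unfold occs at h1 h2 h3 ⊢
      rw [List.flatMap_cons]
      have key : ∀ k, ([s.1, s.2.1, s.2.2] ++ φ.flatMap (fun t => [t.1, t.2.1, t.2.2]))[k + 3]? =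
          (φ.flatMap (fun t => [t.1, t.2.1, t.2.2]))[k]? := by
        intro k
        rw [List.getElem?_append_right (by simp)]
        simp
      refine ⟨?_, ?_, ?_⟩
      · rw [show 3 * (i + 1) = 3 * i + 3 by omega, key, h1]
      · rw [show 3 * (i + 1) + 1 = 3 * i + 1 + 3 by omega, key, h2]
      · rw [show 3 * (i + 1) + 2 = 3 * i + 2 + 3 by omega, key, h3]

theorem var_get {φ : List (ℕ × ℕ × ℕ)} {i : ℕ} {t : ℕ × ℕ × ℕ} (h : φ[i]? = some t) :
    var φ (3 * i) = t.1 ∧ var φ (3 * i + 1) = t.2.1 ∧ var φ (3 * i + 2) = t.2.2 := by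
  obtain ⟨h1, h2, h3⟩ := occs_get φ i t h
  unfold var
  rw [List.getD_eq_getElem?_getD, List.getD_eq_getElem?_getD, List.getD_eq_getElem?_getD, h1, h2,
    h3]
  exact ⟨rfl, rfl, rfl⟩

theorem first_spec {φ : List (ℕ × ℕ × ℕ)} {j : ℕ} (hj : j < 3 * φ.length) :
    first φ (var φ j) < 3 * φ.length ∧ var φ (first φ (var φ j)) = var φ j := by
  rw [← occs_length] at hj ⊢
  have hv : var φ j = (occs φ)[j] := by
    unfold var
    rw [List.getD_eq_getElem _ _ hj]
  have hmem : (var φ j, j) ∈ (occs φ).zipIdx.filter (fun p => decide (p.1 = var φ j)) := by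
    rw [List.mem_filter, List.mem_zipIdx_iff_getElem?]
    simp [hv, hj]
  have hne : 0 < ((occs φ).zipIdx.filter (fun p => decide (p.1 = var φ j))).length :=
    List.length_pos_of_mem hmem
  have h1 : ((occs φ).zipIdx.filter (fun p => decide (p.1 = var φ j))).getD 0 (0, 0) ∈
      (occs φ).zipIdx.filter (fun p => decide (p.1 = var φ j)) := by
    rw [List.getD_eq_getElem _ _ hne]
    exact List.getElem_mem hne
  change _ ∧ var φ (((occs φ).zipIdx.filter (fun p => decide (p.1 = var φ j))).getD 0 (0, 0)).2 = _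
  change (((occs φ).zipIdx.filter (fun p => decide (p.1 = var φ j))).getD 0 (0, 0)).2 < _ ∧ _
  generalize ((occs φ).zipIdx.filter (fun p => decide (p.1 = var φ j))).getD 0 (0, 0) = q at *
  rw [List.mem_filter, List.mem_zipIdx_iff_getElem?] at h1
  obtain ⟨h2, h3⟩ := h1
  obtain ⟨h4, h5⟩ := List.getElem?_eq_some_iff.1 h2
  refine ⟨h4, ?_⟩
  rw [decide_eq_true_eq] at h3
  unfold var at h3 ⊢
  rw [List.getD_eq_getElem _ _ h4, h5]
  exact h3

/-! ### The instance is well formed -/

theorem len1 (φ : List (ℕ × ℕ × ℕ)) : (red φ).1.1.length = 9 * φ.length := by simp [red]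

theorem len2 (φ : List (ℕ × ℕ × ℕ)) : (red φ).1.2.length = 17 * φ.length := by simp [red]

theorem resPref_red {φ : List (ℕ × ℕ × ℕ)} {r : ℕ} (hr : r < 9 * φ.length) :
    resPref (red φ).1 r = rl φ r := by
  unfold resPref red
  rw [List.getD_eq_getElem _ _ (by simpa using hr)]
  simp

theorem hos_red {φ : List (ℕ × ℕ × ℕ)} {h : ℕ} (hh : h < 17 * φ.length) :
    (red φ).1.2.getD h ([], 0, 0) = hl φ h := by
  unfold red
  rw [List.getD_eq_getElem _ _ (by simpa using hh)]
  simp

theorem split17 (h : ℕ) : ∃ b k, k < 17 ∧ h = 17 * b + k ∧ h / 17 = b ∧ h % 17 = k :=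
  ⟨h / 17, h % 17, by omega, by omega, rfl, rfl⟩

theorem split9 (r : ℕ) : ∃ a t s, t < 3 ∧ s < 3 ∧ r = 9 * a + 3 * t + s ∧ r / 9 = a ∧
    r % 9 = 3 * t + s ∧ r / 3 = 3 * a + t ∧ r % 3 = s :=
  ⟨r / 9, r / 3 % 3, r % 3, by omega, by omega, by omega, rfl, by omega, by omega, rfl⟩

theorem split3 (f : ℕ) : ∃ c d, d < 3 ∧ f = 3 * c + d ∧ f / 3 = c ∧ f % 3 = d :=
  ⟨f / 3, f % 3, by omega, by omega, rfl, rfl⟩

theorem mem_hl {φ : List (ℕ × ℕ × ℕ)} {h r : ℕ} (hh : h < 17 * φ.length) :
    r ∈ (hl φ h).1 ↔ r < 9 * φ.length ∧ h ∈ rl φ r := by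
  unfold hl rl dH eH nH
  obtain ⟨b, k, hk, e1, e2, e3⟩ := split17 h
  obtain ⟨a, t, s, ht, hs, e4, e5, e6, e7, e8⟩ := split9 r
  rw [e2, e3, e5, e6, e7, e8, show (3 * a + t) / 3 = a by omega,
    show (3 * a + t) % 3 = t by omega]
  generalize hf : first φ (var φ (3 * a + t)) = f
  have hfl : r < 9 * φ.length → f < 3 * φ.length := fun h => by
    rw [← hf]
    exact (first_spec (by omega)).1
  obtain ⟨c, d, hd, e9, e10, e11⟩ := split3 f
  rw [e10, e11]
  generalize φ.length = L at *
  split_ifs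
  all_goals
    simp only [List.mem_cons, List.not_mem_nil, or_false, List.mem_filter, List.mem_range,
      Bool.and_eq_true, decide_eq_true_eq, e7, e8, hf]
    subst e1 e4 e9
    clear hf e2 e3 e5 e6 e7 e8 e10 e11
    rcases lt_trichotomy a b with h1 | h1 | h1 <;>
    rcases lt_trichotomy c b with h2 | h2 | h2 <;> omega

theorem rl_lt {φ : List (ℕ × ℕ × ℕ)} {h r : ℕ} (hr : r < 9 * φ.length) (hh : h ∈ rl φ r) :
    h < 17 * φ.length := by
  have h1 : first φ (var φ (r / 3)) < 3 * φ.length := (first_spec (by omega)).1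
  unfold rl dH eH nH at hh
  generalize first φ (var φ (r / 3)) = f at *
  split_ifs at hh <;> simp only [List.mem_cons, List.not_mem_nil, or_false] at hh <;> omega

theorem rl_nodup {φ : List (ℕ × ℕ × ℕ)} {r : ℕ} : (rl φ r).Nodup := by
  unfold rl dH eH nH
  generalize first φ (var φ (r / 3)) = f
  split_ifs
  all_goals
    simp only [List.nodup_cons, List.mem_cons, List.not_mem_nil, or_false, not_or,
      not_false_eq_true, List.nodup_nil, and_true]
    rcases lt_trichotomy (r / 9) (f / 3) with h1 | h1 | h1 <;> omega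

theorem hl_nodup {φ : List (ℕ × ℕ × ℕ)} {h : ℕ} : (hl φ h).1.Nodup := by
  unfold hl
  split_ifs
  · simp
  · exact List.nodup_range.filter _
  all_goals
    simp only [List.nodup_cons, List.mem_cons, List.not_mem_nil, or_false, not_or,
      not_false_eq_true, List.nodup_nil, and_true]
    omega

theorem hl_quota (φ : List (ℕ × ℕ × ℕ)) (h : ℕ) :
    1 ≤ (hl φ h).2.1 ∧ (hl φ h).2.1 ≤ (hl φ h).2.2 ∧ (hl φ h).2.1 ≤ 2 := by
  unfold hl
  split_ifs <;> simp

theorem valid_red (φ : List (ℕ × ℕ × ℕ)) : Valid (red φ).1 := by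
  refine ⟨fun r hr => ?_, fun h hh => ?_⟩
  · rw [len1] at hr
    rw [resPref_red hr]
    refine ⟨rl_nodup, fun h hh => ?_⟩
    have h1 := rl_lt hr hh
    rw [len2]
    refine ⟨h1, ?_⟩
    unfold hosPref
    rw [hos_red h1, mem_hl h1]
    exact ⟨hr, hh⟩
  · rw [len2] at hh
    unfold hosPref lower upper
    rw [hos_red hh]
    obtain ⟨h1, h2, _⟩ := hl_quota φ h
    refine ⟨hl_nodup, fun r hr => ?_, h2, by omega⟩
    rw [mem_hl hh] at hr
    rw [len1, resPref_red hr.1]
    exact hr

theorem low_red (φ : List (ℕ × ℕ × ℕ)) : LowerAtMostTwo (red φ).1 := by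
  intro h hh
  rw [len2] at hh
  unfold lower
  rw [hos_red hh]
  exact (hl_quota φ h).2.2

/-! ### From a truth assignment to a matching -/

/-- the hospital of the resident `r` -/
def asg (φ : List (ℕ × ℕ × ℕ)) (τ : ℕ → Bool) (r : ℕ) : ℕ :=
  if r % 3 = 0 then (if τ (var φ (r / 3)) then eH (first φ (var φ (r / 3)))
    else 17 * (r / 9) + 15)
  else if r % 3 = 1 then (if τ (var φ (r / 3)) then eH (first φ (var φ (r / 3)))
    else nH (r / 3))
  else (if τ (var φ (r / 3)) then 17 * (r / 9) + 16 else nH (r / 3))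

/-- the matching -/
def mat (φ : List (ℕ × ℕ × ℕ)) (τ : ℕ → Bool) (r : ℕ) : Option ℕ :=
  if r < 9 * φ.length then some (asg φ τ r) else none

theorem mem_assignees {φ : List (ℕ × ℕ × ℕ)} {τ : ℕ → Bool} {h r : ℕ} :
    r ∈ assignees (red φ).1 (mat φ τ) h ↔ r < 9 * φ.length ∧ asg φ τ r = h := by
  unfold assignees mat
  rw [Finset.mem_filter, Finset.mem_range, len1]
  refine and_congr_right fun hr => ?_
  rw [if_pos hr, Option.some.injEq]

theorem asg_mem (φ : List (ℕ × ℕ × ℕ)) (τ : ℕ → Bool) (r : ℕ) : asg φ τ r ∈ rl φ r := by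
  unfold asg rl
  split_ifs <;> simp

theorem size_mat (φ : List (ℕ × ℕ × ℕ)) (τ : ℕ → Bool) :
    size (red φ).1 (mat φ τ) = 9 * φ.length := by
  unfold size
  rw [len1, Finset.filter_true_of_mem, Finset.card_range]
  intro r hr
  rw [Finset.mem_range] at hr
  simp [mat, hr]

/-- the residents of a variable hospital are those of a true variable -/
theorem asg_e {φ : List (ℕ × ℕ × ℕ)} {τ : ℕ → Bool} {r j : ℕ} (hr : r < 9 * φ.length)
    (hj : j < 3 * φ.length) (h : asg φ τ r = eH (first φ (var φ j))) : τ (var φ j) = true := by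
  have h1 := (first_spec (φ := φ) (j := r / 3) (by omega)).2
  have h2 := (first_spec hj).2
  unfold asg nH eH at h
  have key : first φ (var φ (r / 3)) = first φ (var φ j) → var φ (r / 3) = var φ j := by
    intro h'
    rw [← h1, ← h2, h']
  generalize first φ (var φ (r / 3)) = f at *
  generalize first φ (var φ j) = g at *
  split_ifs at h with h3 h4 h5 h6 h7
  · have : f = g := by omega
    rw [← key this]
    exact h4
  · omega
  · have : f = g := by omega
    rw [← key this]
    exact h6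
  · omega
  · omega
  · omega

end Pool.Agent.Q231.LQ
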